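import Mathlib
import Pool.Agent.L0h32.CX.StmL

/-! Project CX: the module LOW. -/

set_option autoImplicit false

namespace Pool.Agent.L0h78.CX

open Pool.Agent.H630R2.LA Pool.Agent.TH705.LB Pool.Agent.N602.FT Pool.Agent.R620.KV
open Pool.Agent.L0h32.CX (S_LOW)

theorem t_LOW : S_LOW := by
  intro m strict M hM
  classical
  have hfin := M.finQ
  have key : ∀ G : Set (Mat m), ∃ l : Set (M.Q × M.Q) × M.Q,
      LeftOK strict M (lft G 0) l ∧ RightOK strict M (rgt G 0) l := by
    intro G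
    have hacc : lft G 0 ++ rgt G 0 ∈ M.language strict := by
      rw [hM, Set.mem_compl_iff, mem_lft_rgt]
      rintro ⟨Y, h1, h2⟩
      exact h2 h1
    obtain ⟨c0, h4, h5, h6⟩ := hacc
    obtain ⟨T, f, h7, h8⟩ := comp_of_rtg h4
    have hf : IsAcc strict M (lft G 0 ++ rgt G 0) T f :=
      ⟨h7, by rw [h8]; exact h5, by rw [h8]; exact h6⟩
    obtain ⟨p, hp1, hp2⟩ := split hf
    exact ⟨_, hp1, hp2⟩
  choose l hl hr using key
  have hsub : ∀ G G' : Set (Mat m), l G = l G' → G ⊆ G' := by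
    intro G G' h Y hY
    by_contra hY'
    have h1 : lft G 0 ++ rgt G' 0 ∈ M.language strict := by
      apply paste (hl G)
      rw [h]
      exact hr G'
    rw [hM, Set.mem_compl_iff, mem_lft_rgt] at h1
    exact h1 ⟨Y, hY, hY'⟩
  have hinj : Function.Injective l := by
    intro G G' h
    exact Set.Subset.antisymm (hsub G G' h) (hsub G' G h.symm)
  have h1 := Nat.card_le_card_of_injective l hinj
  rw [card_sets m, Nat.card_prod] at h1
  have h2 : Nat.card (Set (M.Q × M.Q)) = 2 ^ (Nat.card M.Q ^ 2) := by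
    have e : Nat.card (Set (M.Q × M.Q)) = Nat.card (M.Q × M.Q → Prop) := rfl
    rw [e, Nat.card_fun, Nat.card_prod, sq]
    simp
  rwa [h2] at h1

end Pool.Agent.L0h78.CX
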